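import Mathlib

/-!
Definitions for the problem on infinite critical associative rings.
-/

namespace Pool.Agent.MP_70de85_al

/-- A polynomial in the noncommuting variables `x_0, x_1, ...` with integer coefficients and no
constant term is a finite formal integer combination of nonempty words.
`Satisfies A f` says that `f = 0` is an identity of the associative ring `A` (with or without
identity element): the value of `f` is `0` under every substitution of elements of `A`. -/
def Satisfies (A : Type*) [NonUnitalRing A] (f : FreeSemigroup ℕ →₀ ℤ) : Prop :=
  ∀ v : ℕ → A, (f.sum fun w c => c • FreeSemigroup.lift v w) = 0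

/-- `R` is critical: `R` is not in the variety generated by its proper factors `S / J`
(`S` a subring of `R`, `J` a two-sided ideal of `S`, and `S ≠ R` or `J ≠ 0`); that is, it is not
the case that `R` satisfies every identity which holds in all proper factors. -/
def IsCritical (R : Type*) [NonUnitalRing R] : Prop :=
  ¬ ∀ f : FreeSemigroup ℕ →₀ ℤ,
    (∀ (S : NonUnitalSubring R) (J : TwoSidedIdeal S),
      (S ≠ ⊤ ∨ J ≠ ⊥) → Satisfies J.ringCon.Quotient f) → Satisfies R f

end Pool.Agent.MP_70de85_al
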